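import Mathlib

/-!
# Subset sums of a random lacunary set have no limiting density constant

`A` contains each positive integer `i` independently with probability `min 1 (1 / (i log 2))`.
Almost surely `sqrt(log n) |Σ(A) ∩ [n]| / n` does not converge to any constant `0 < C < ∞`.
-/

open MeasureTheory ProbabilityTheory Filter Topology MeasurableSpace
open scoped ENNReal

namespace Pool.Agent.Results.MP_78f804_pr.NoDensityConstant

/-- All sums of finite nonempty subsets of `A` (each element used at most once). -/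
def SubsetSums (A : Set ℕ) : Set ℕ :=
  {s | ∃ F : Finset ℕ, F.Nonempty ∧ (F : Set ℕ) ⊆ A ∧ ∑ a ∈ F, a = s}

/-- The random set `A` of the problem: a random set of positive integers, containing each
`i ≥ 1` with probability `min 1 (1 / (i log 2))`, independently for different `i`. -/
structure IsRandomLacunarySet {Ω : Type*} [MeasurableSpace Ω] (μ : Measure Ω)
    (A : Ω → Set ℕ) : Prop where
  /-- only positive integers -/
  pos : ∀ ω, ∀ i ∈ A ω, 1 ≤ i
  /-- the events `i ∈ A` are measurable -/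
  meas : ∀ i, MeasurableSet {ω | i ∈ A ω}
  /-- the events `i ∈ A` are independent -/
  indep : iIndepSet (fun i : ℕ => {ω | i ∈ A ω}) μ
  /-- their probabilities -/
  prob : ∀ i : ℕ, 1 ≤ i → μ {ω | i ∈ A ω} = ENNReal.ofReal (min 1 (1 / (i * Real.log 2)))

/-! ### The deterministic part -/

lemma sums_eq (A : Set ℕ) (N : ℕ) (h1 : ∀ i ∈ A, ¬ (N < i ∧ i ≤ 8 * N))
    (h2 : ∀ F : Finset ℕ, (F : Set ℕ) ⊆ A → (∀ i ∈ F, i ≤ N) → ∑ i ∈ F, i ≤ 4 * N) :
    SubsetSums A ∩ Set.Icc 1 (8 * N) = SubsetSums A ∩ Set.Icc 1 (4 * N) := by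
  ext s
  constructor
  · rintro ⟨⟨F, hne, hFA, rfl⟩, h3, h4⟩
    refine ⟨⟨F, hne, hFA, rfl⟩, h3, h2 F hFA ?_⟩
    intro i hi
    have hle : i ≤ ∑ a ∈ F, a := Finset.single_le_sum (f := fun a => a) (fun _ _ => Nat.zero_le _) hi
    by_contra hc
    exact h1 i (hFA hi) ⟨by omega, by omega⟩
  · rintro ⟨hs, h3, h4⟩
    exact ⟨hs, h3, by omega⟩

lemma no_limit (c : ℕ → ℕ) (C : ℝ) (hC : 0 < C)
    (hlim : Tendsto (fun n : ℕ => Real.sqrt (Real.log n) * (c n : ℝ) / n) atTop (𝓝 C))
    (hfreq : ∃ᶠ N in atTop, c (8 * N) = c (4 * N)) : False := by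
  have t8 : Tendsto (fun N : ℕ => 8 * N) atTop atTop :=
    tendsto_atTop_mono (fun n => by simp only [id]; omega) tendsto_id
  have t4 : Tendsto (fun N : ℕ => 4 * N) atTop atTop :=
    tendsto_atTop_mono (fun n => by simp only [id]; omega) tendsto_id
  have l8 := (hlim.comp t8).const_mul 2
  have l4 := (hlim.comp t4).const_mul (Real.sqrt 2)
  have hlt : Real.sqrt 2 * C < 2 * C := by
    have : Real.sqrt 2 < 2 := by
      rw [Real.sqrt_lt' (by norm_num)]
      norm_num
    exact mul_lt_mul_of_pos_right this hC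
  have hev := l4.eventually_lt l8 hlt
  obtain ⟨N, hN1, hN2, hN3⟩ := (hfreq.and_eventually (hev.and (eventually_ge_atTop 1))).exists
  simp only [Function.comp] at hN2
  rw [hN1] at hN2
  have hN : (1 : ℝ) ≤ N := by exact_mod_cast hN3
  have hlog4 : 0 ≤ Real.log (4 * N) := Real.log_nonneg (by linarith)
  have hlog8 : Real.log (8 * N) ≤ 2 * Real.log (4 * N) := by
    have : 2 * Real.log (4 * N) = Real.log ((4 * N) ^ 2) := by
      rw [Real.log_pow]
      push_cast
      ring
    rw [this]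
    apply Real.log_le_log (by linarith)
    nlinarith
  have hsq : Real.sqrt (Real.log (8 * N)) ≤ Real.sqrt 2 * Real.sqrt (Real.log (4 * N)) := by
    rw [← Real.sqrt_mul (by norm_num)]
    exact Real.sqrt_le_sqrt hlog8
  have hle : 2 * (Real.sqrt (Real.log ((8 * N : ℕ) : ℝ)) * (c (4 * N) : ℝ) / ((8 * N : ℕ) : ℝ)) ≤
      Real.sqrt 2 * (Real.sqrt (Real.log ((4 * N : ℕ) : ℝ)) * (c (4 * N) : ℝ) /
        ((4 * N : ℕ) : ℝ)) := by
    push_cast
    have e1 : 2 * (Real.sqrt (Real.log (8 * N)) * (c (4 * N) : ℝ) / (8 * (N : ℝ))) =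
        Real.sqrt (Real.log (8 * N)) * ((c (4 * N) : ℝ) / (4 * N)) := by
      field_simp
      ring
    have e2 : Real.sqrt 2 * (Real.sqrt (Real.log (4 * N)) * (c (4 * N) : ℝ) / (4 * (N : ℝ))) =
        Real.sqrt 2 * Real.sqrt (Real.log (4 * N)) * ((c (4 * N) : ℝ) / (4 * N)) := by
      ring
    rw [e1, e2]
    exact mul_le_mul_of_nonneg_right hsq (by positivity)
  exact absurd hN2 (not_lt.mpr hle)

/-! ### The scales -/

/-- the ends of the blocks -/
def b : ℕ → ℕ
  | 0 => 0
  | j + 1 => 8 * ((b j) ^ 2 + 2)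

/-- the scale inside block `j` -/
def sc (j : ℕ) : ℕ := (b j) ^ 2 + 2

lemma b_succ (j : ℕ) : b (j + 1) = 8 * sc j := rfl

lemma b_le_sc (j : ℕ) : b j ≤ sc j := by
  unfold sc
  nlinarith [sq_nonneg ((b j : ℤ) - 1), Nat.zero_le (b j), sq_nonneg (b j)]

lemma b_strictMono : StrictMono b := by
  apply strictMono_nat_of_lt_succ
  intro j
  rw [b_succ]
  have := b_le_sc j
  have : 0 < sc j := by unfold sc; omega
  omega

lemma sc_tendsto : Tendsto sc atTop atTop :=
  tendsto_atTop_mono (fun n => le_trans (b_strictMono.id_le n) (b_le_sc n)) tendsto_id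

/-! ### The probabilistic part -/

section Prob

variable {Ω : Type*} [mΩ : MeasurableSpace Ω] {μ : Measure Ω} {A : Ω → Set ℕ}

/-- the sigma-algebra generated by the event `i ∈ A` -/
@[reducible] def mi (A : Ω → Set ℕ) (i : ℕ) : MeasurableSpace Ω := generateFrom {{ω | i ∈ A ω}}

/-- the sum of the elements of `A` in `(M, N]` -/
noncomputable def bs (A : Ω → Set ℕ) (M N : ℕ) (ω : Ω) : ℝ≥0∞ :=
  ∑ i ∈ Finset.Ioc M N, {ω | i ∈ A ω}.indicator (fun _ => (i : ℝ≥0∞)) ω

/-- the good event of block `j` -/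
def Ev (A : Ω → Set ℕ) (j : ℕ) : Set Ω :=
  (⋂ i ∈ Finset.Ioc (sc j) (8 * sc j), {ω | i ∈ A ω}ᶜ) ∩
    {ω | (3 * sc j : ℕ) ≤ bs A (b j) (sc j) ω}ᶜ

omit mΩ in
lemma gap_meas (A : Ω → Set ℕ) (N K : ℕ) :
    MeasurableSet[⨆ i ∈ Set.Ioc N K, mi A i] (⋂ i ∈ Finset.Ioc N K, {ω | i ∈ A ω}ᶜ) := by
  apply MeasurableSet.biInter (Finset.countable_toSet _)
  intro i hi
  apply MeasurableSet.compl
  have h1 : mi A i ≤ ⨆ i ∈ Set.Ioc N K, mi A i :=
    le_iSup₂_of_le i (by simpa using hi) le_rfl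
  exact h1 _ (measurableSet_generateFrom rfl)

omit mΩ in
lemma bs_meas (A : Ω → Set ℕ) (M N : ℕ) :
    Measurable[⨆ i ∈ Set.Ioc M N, mi A i] (bs A M N) := by
  unfold bs
  apply Finset.measurable_fun_sum
  intro i hi
  apply Measurable.indicator measurable_const
  have h1 : mi A i ≤ ⨆ i ∈ Set.Ioc M N, mi A i :=
    le_iSup₂_of_le i (by simpa using hi) le_rfl
  exact h1 _ (measurableSet_generateFrom rfl)

omit mΩ in
lemma sup_mono (A : Ω → Set ℕ) {M N M' N' : ℕ} (h1 : M' ≤ M) (h2 : N ≤ N') :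
    (⨆ i ∈ Set.Ioc M N, mi A i) ≤ ⨆ i ∈ Set.Ioc M' N', mi A i :=
  biSup_mono (fun _ hi => Set.Ioc_subset_Ioc h1 h2 hi)

omit mΩ in
lemma Ev_meas_block (A : Ω → Set ℕ) (j : ℕ) :
    MeasurableSet[⨆ i ∈ Set.Ioc (b j) (b (j + 1)), mi A i] (Ev A j) := by
  apply MeasurableSet.inter
  · exact sup_mono A (b_le_sc j) (le_of_eq (b_succ j).symm) _ (gap_meas A (sc j) (8 * sc j))
  · apply MeasurableSet.compl
    have h := bs_meas A (b j) (sc j)
    have h2 : sc j ≤ b (j + 1) := by rw [b_succ]; omega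
    exact sup_mono A le_rfl h2 _ (h measurableSet_Ici)

lemma mi_le (hA : IsRandomLacunarySet μ A) (i : ℕ) : mi A i ≤ mΩ := by
  apply generateFrom_le
  intro t ht
  rw [Set.mem_singleton_iff.mp ht]
  exact hA.meas i

lemma Ev_meas (hA : IsRandomLacunarySet μ A) (j : ℕ) : MeasurableSet (Ev A j) := by
  have h : (⨆ i ∈ Set.Ioc (b j) (b (j + 1)), mi A i) ≤ mΩ := iSup₂_le fun i _ => mi_le hA i
  exact h _ (Ev_meas_block A j)

lemma indep_mi (hA : IsRandomLacunarySet μ A) : iIndep (mi A) μ :=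
  (iIndepSet_iff_iIndep _ _).mp hA.indep

lemma Ev_indep (hA : IsRandomLacunarySet μ A) : iIndepSet (Ev A) μ := by
  rw [iIndepSet_iff_meas_biInter (Ev_meas hA)]
  intro t
  induction t using Finset.induction_on with
  | empty =>
    have := hA.indep.isProbabilityMeasure
    simp
  | insert a t ha ih =>
    rw [Finset.prod_insert ha, Finset.set_biInter_insert, ← ih]
    have hdisj : Disjoint (Set.Ioc (b a) (b (a + 1))) (⋃ j ∈ t, Set.Ioc (b j) (b (j + 1))) := by
      rw [Set.disjoint_iUnion₂_right]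
      intro j hj
      have hne : a ≠ j := fun h => ha (h ▸ hj)
      exact b_strictMono.monotone.pairwise_disjoint_on_Ioc_succ hne
    have hI := indep_iSup_of_disjoint (mi_le hA) (indep_mi hA) hdisj
    rw [Indep_iff] at hI
    apply hI
    · exact Ev_meas_block A a
    · apply MeasurableSet.biInter (Finset.countable_toSet _)
      intro j hj
      have hle : (⨆ i ∈ Set.Ioc (b j) (b (j + 1)), mi A i) ≤
          ⨆ i ∈ ⋃ j ∈ t, Set.Ioc (b j) (b (j + 1)), mi A i :=
        biSup_mono (fun i hi => Set.mem_biUnion hj hi)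
      exact hle _ (Ev_meas_block A j)

lemma log_two_inv : 1 / Real.log 2 ≤ 1.443 := by
  have := Real.log_two_gt_d9
  rw [div_le_iff₀ (by linarith)]
  linarith

lemma prob_le (hA : IsRandomLacunarySet μ A) (i : ℕ) (hi : 1 ≤ i) :
    (μ {ω | i ∈ A ω}).toReal ≤ 1.443 / i := by
  rw [hA.prob i hi, ENNReal.toReal_ofReal]
  · refine le_trans (min_le_right _ _) ?_
    have hi0 : (0 : ℝ) < i := by exact_mod_cast hi
    have h2 : 1 / ((i : ℝ) * Real.log 2) = (1 / Real.log 2) / i := by
      rw [div_div, mul_comm]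
    rw [h2]
    exact div_le_div_of_nonneg_right log_two_inv hi0.le
  · have := Real.log_two_gt_d9
    have hi0 : (0 : ℝ) < i := by exact_mod_cast hi
    apply le_min zero_le_one
    positivity

lemma gap_prob (hA : IsRandomLacunarySet μ A) (N k : ℕ) (hN : 1 ≤ N) :
    ((N : ℝ) / (N + k)) ^ 2 ≤ (μ (⋂ i ∈ Finset.Ioc N (N + k), {ω | i ∈ A ω}ᶜ)).toReal := by
  have hP := hA.indep.isProbabilityMeasure
  have h1 : μ (⋂ i ∈ Finset.Ioc N (N + k), {ω | i ∈ A ω}ᶜ) =
      ∏ i ∈ Finset.Ioc N (N + k), μ ({ω | i ∈ A ω}ᶜ) := by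
    apply (indep_mi hA).meas_biInter
    intro i _
    exact MeasurableSet.compl (measurableSet_generateFrom rfl)
  rw [h1, ENNReal.toReal_prod]
  induction k with
  | zero =>
    have : (N : ℝ) ≠ 0 := by positivity
    simp [this]
  | succ k ih =>
    have h2 : Finset.Ioc N (N + (k + 1)) = insert (N + (k + 1)) (Finset.Ioc N (N + k)) := by
      ext x
      simp only [Finset.mem_Ioc, Finset.mem_insert]
      omega
    rw [h2, Finset.prod_insert (by simp)]
    have h3 : (μ ({ω | (N + (k + 1)) ∈ A ω}ᶜ)).toReal = 1 - (μ {ω | (N + (k + 1)) ∈ A ω}).toReal := by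
      rw [prob_compl_eq_one_sub (hA.meas _), ENNReal.toReal_sub_of_le prob_le_one (by simp)]
      simp
    rw [h3]
    have h4 := prob_le hA (N + (k + 1)) (by omega)
    push_cast at h4 ⊢
    have hNk : (0 : ℝ) < N + k := by
      have : (1 : ℝ) ≤ N := by exact_mod_cast hN
      positivity
    have hN1 : (1 : ℝ) ≤ N := by exact_mod_cast hN
    have hk0 : (0 : ℝ) ≤ k := by positivity
    have h5 : (((N : ℝ) + k) / (N + (k + 1))) ^ 2 ≤ 1 - 1.443 / (N + (k + 1)) := by
      rw [div_pow, div_le_iff₀ (by positivity)]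
      have : (1 - 1.443 / ((N : ℝ) + (k + 1))) * (N + (k + 1)) ^ 2 =
          (N + (k + 1)) ^ 2 - 1.443 * (N + (k + 1)) := by
        field_simp
      rw [this]
      nlinarith
    have h6 : ((N : ℝ) / (N + (k + 1))) ^ 2 =
        (((N : ℝ) + k) / (N + (k + 1))) ^ 2 * ((N : ℝ) / (N + k)) ^ 2 := by
      rw [← mul_pow]
      congr 1
      field_simp
    rw [h6]
    have h7 := ih (by
      apply (indep_mi hA).meas_biInter
      intro i _
      exact MeasurableSet.compl (measurableSet_generateFrom rfl))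
    apply mul_le_mul _ h7 (by positivity)
    · have : (0 : ℝ) ≤ (((N : ℝ) + k) / (N + (k + 1))) ^ 2 := by positivity
      linarith
    · linarith

lemma bs_prob (hA : IsRandomLacunarySet μ A) (M N : ℕ) (hN : 1 ≤ N) :
    μ {ω | ((3 * N : ℕ) : ℝ≥0∞) ≤ bs A M N ω} ≤ ENNReal.ofReal (1 / 2) := by
  have hmeas : Measurable (bs A M N) := by
    unfold bs
    apply Finset.measurable_fun_sum
    intro i hi
    exact Measurable.indicator measurable_const (hA.meas i)
  have hint : ∫⁻ ω, bs A M N ω ∂μ ≤ ENNReal.ofReal (1.443 * N) := by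
    unfold bs
    rw [lintegral_finsetSum _ (fun i _ => Measurable.indicator measurable_const (hA.meas i))]
    have : ∀ i ∈ Finset.Ioc M N, ∫⁻ ω, {ω | i ∈ A ω}.indicator (fun _ => (i : ℝ≥0∞)) ω ∂μ ≤
        ENNReal.ofReal 1.443 := by
      intro i hi
      have hi1 : 1 ≤ i := by
        have := (Finset.mem_Ioc.mp hi).1
        omega
      have hi0 : (0 : ℝ) < i := by exact_mod_cast hi1
      have := hA.indep.isProbabilityMeasure
      rw [lintegral_indicator (hA.meas i), lintegral_const, Measure.restrict_apply_univ]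
      rw [← ENNReal.ofReal_natCast, ← ENNReal.ofReal_toReal (measure_ne_top μ {ω | i ∈ A ω}),
        ← ENNReal.ofReal_mul hi0.le]
      apply ENNReal.ofReal_le_ofReal
      have := prob_le hA i hi1
      rw [le_div_iff₀ hi0] at this
      linarith
    refine le_trans (Finset.sum_le_sum this) ?_
    rw [Finset.sum_const, nsmul_eq_mul, mul_comm, ENNReal.ofReal_mul (by norm_num),
      ENNReal.ofReal_natCast]
    gcongr
    simp
  refine le_trans (meas_ge_le_lintegral_div hmeas.aemeasurable ?_ ?_) ?_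
  · simp
    omega
  · exact ENNReal.natCast_ne_top _
  · have hN0 : (0 : ℝ) < N := by exact_mod_cast hN
    refine le_trans (ENNReal.div_le_div_right hint _) ?_
    rw [← ENNReal.ofReal_natCast, ← ENNReal.ofReal_div_of_pos (by push_cast; positivity)]
    apply ENNReal.ofReal_le_ofReal
    push_cast
    rw [div_le_iff₀ (by positivity)]
    nlinarith

lemma Ev_prob (hA : IsRandomLacunarySet μ A) (j : ℕ) : ENNReal.ofReal (1 / 128) ≤ μ (Ev A j) := by
  have hP := hA.indep.isProbabilityMeasure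
  have hsc : 1 ≤ sc j := by unfold sc; omega
  have hdisj : Disjoint (Set.Ioc (sc j) (8 * sc j)) (Set.Ioc (b j) (sc j)) := by
    rw [Set.disjoint_left]
    rintro x ⟨h1, _⟩ ⟨_, h2⟩
    omega
  have hI := indep_iSup_of_disjoint (mi_le hA) (indep_mi hA) hdisj
  rw [Indep_iff] at hI
  have h := hI _ _ (gap_meas A (sc j) (8 * sc j))
    (MeasurableSet.compl (bs_meas A (b j) (sc j) (measurableSet_Ici (a := ((3 * sc j : ℕ) : ℝ≥0∞)))))
  have h1 : ENNReal.ofReal (1 / 64) ≤ μ (⋂ i ∈ Finset.Ioc (sc j) (8 * sc j), {ω | i ∈ A ω}ᶜ) := by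
    rw [ENNReal.ofReal_le_iff_le_toReal (measure_ne_top _ _)]
    have := gap_prob hA (sc j) (7 * sc j) hsc
    have e : sc j + 7 * sc j = 8 * sc j := by ring
    rw [e] at this
    refine le_trans (le_of_eq ?_) this
    have : (0 : ℝ) < sc j := by exact_mod_cast hsc
    push_cast
    field_simp
    norm_num
  have h2 : ENNReal.ofReal (1 / 2) ≤
      μ ((bs A (b j) (sc j) ⁻¹' Set.Ici ((3 * sc j : ℕ) : ℝ≥0∞))ᶜ) := by
    have hm : MeasurableSet (bs A (b j) (sc j) ⁻¹' Set.Ici ((3 * sc j : ℕ) : ℝ≥0∞)) := by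
      have hle : (⨆ i ∈ Set.Ioc (b j) (sc j), mi A i) ≤ mΩ := iSup₂_le fun i _ => mi_le hA i
      exact hle _ (bs_meas A (b j) (sc j) measurableSet_Ici)
    rw [prob_compl_eq_one_sub hm]
    have h3 := bs_prob hA (b j) (sc j) hsc
    have h4 : μ (bs A (b j) (sc j) ⁻¹' Set.Ici ((3 * sc j : ℕ) : ℝ≥0∞)) ≤
        ENNReal.ofReal (1 / 2) := h3
    calc ENNReal.ofReal (1 / 2) = 1 - ENNReal.ofReal (1 / 2) := by
          rw [← ENNReal.ofReal_one, ← ENNReal.ofReal_sub _ (by norm_num)]
          norm_num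
      _ ≤ _ := tsub_le_tsub_left h4 1
  calc ENNReal.ofReal (1 / 128) = ENNReal.ofReal (1 / 64) * ENNReal.ofReal (1 / 2) := by
        rw [← ENNReal.ofReal_mul (by norm_num)]
        norm_num
    _ ≤ _ := mul_le_mul' h1 h2
    _ = μ (Ev A j) := h.symm

/-- Almost surely infinitely many of the events `Ev A j` occur. -/
lemma Ev_freq (hA : IsRandomLacunarySet μ A) : ∀ᵐ ω ∂μ, ∃ᶠ j in atTop, ω ∈ Ev A j := by
  have hP := hA.indep.isProbabilityMeasure
  have hsum : (∑' j, μ (Ev A j)) = ∞ := by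
    apply top_unique
    rw [← ENNReal.tsum_const_eq_top_of_ne_zero (α := ℕ) (c := ENNReal.ofReal (1 / 128))
      (by simp)]
    exact ENNReal.tsum_le_tsum (Ev_prob hA)
  have h := measure_limsup_eq_one (Ev_meas hA) (Ev_indep hA) hsum
  have hm : MeasurableSet (limsup (Ev A) atTop) := MeasurableSet.measurableSet_limsup (Ev_meas hA)
  have h2 : ∀ᵐ ω ∂μ, ω ∈ limsup (Ev A) atTop := (mem_ae_iff_prob_eq_one hm).mpr h
  filter_upwards [h2] with ω hω
  exact mem_limsup_iff_frequently_mem.mp hω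

omit mΩ in
/-- On `Ev A j` the sums up to `8 N` are those up to `4 N`, for `N = sc j`. -/
lemma Ev_det (A : Ω → Set ℕ) (j : ℕ) (ω : Ω) (h : ω ∈ Ev A j) :
    SubsetSums (A ω) ∩ Set.Icc 1 (8 * sc j) = SubsetSums (A ω) ∩ Set.Icc 1 (4 * sc j) := by
  classical
  obtain ⟨h1, h2⟩ := h
  apply sums_eq
  · rintro i hi ⟨h3, h4⟩
    have := Set.mem_iInter₂.mp h1 i (Finset.mem_Ioc.mpr ⟨h3, h4⟩)
    exact this hi
  · intro F hF hFN
    have h3 : bs A (b j) (sc j) ω < ((3 * sc j : ℕ) : ℝ≥0∞) := not_le.mp h2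
    have h4 : ((∑ i ∈ (Finset.Ioc (b j) (sc j)).filter (fun i => i ∈ A ω), i : ℕ) : ℝ≥0∞) =
        bs A (b j) (sc j) ω := by
      rw [bs, Finset.sum_filter]
      push_cast
      apply Finset.sum_congr rfl
      intro i _
      by_cases hi : i ∈ A ω
      · simp [hi]
      · simp [hi]
    rw [← h4] at h3
    have h5 : ∑ i ∈ (Finset.Ioc (b j) (sc j)).filter (fun i => i ∈ A ω), i < 3 * sc j := by
      exact_mod_cast h3
    have h6 : F ⊆ Finset.range (b j + 1) ∪ (Finset.Ioc (b j) (sc j)).filter (fun i => i ∈ A ω) := by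
      intro i hi
      rw [Finset.mem_union, Finset.mem_filter, Finset.mem_Ioc, Finset.mem_range]
      by_cases hib : i ≤ b j
      · left; omega
      · right
        exact ⟨⟨by omega, hFN i hi⟩, hF hi⟩
    have h7 : ∑ i ∈ Finset.range (b j + 1), i ≤ b j ^ 2 + 2 := by
      have := Finset.sum_range_id_mul_two (b j + 1)
      simp only [Nat.add_sub_cancel] at this
      nlinarith
    have h8 : ∑ i ∈ F, i ≤ ∑ i ∈ Finset.range (b j + 1), i +
        ∑ i ∈ (Finset.Ioc (b j) (sc j)).filter (fun i => i ∈ A ω), i := by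
      refine le_trans (Finset.sum_le_sum_of_subset h6) ?_
      have := Finset.sum_union_inter (s₁ := Finset.range (b j + 1))
        (s₂ := (Finset.Ioc (b j) (sc j)).filter (fun i => i ∈ A ω)) (f := fun i => i)
      omega
    have h9 : b j ^ 2 + 2 = sc j := rfl
    omega

end Prob

/-- Random sets as in the problem exist (so `result` is not vacuous): coordinates of a product of
Bernoulli measures. -/
theorem model_exists : ∃ (Ω : Type) (_ : MeasurableSpace Ω) (μ : Measure Ω) (A : Ω → Set ℕ),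
    IsProbabilityMeasure μ ∧ IsRandomLacunarySet μ A := by
  classical
  let p : ℕ → NNReal := fun i => Real.toNNReal (min 1 (1 / (i * Real.log 2)))
  have hp : ∀ i, p i ≤ 1 := by
    intro i
    rw [Real.toNNReal_le_one]
    exact min_le_left _ _
  let P : (i : ℕ) → Measure Bool := fun i => (PMF.bernoulli (p i) (hp i)).toMeasure
  let X : (i : ℕ) → Bool → Bool := fun i x => if 1 ≤ i then x else false
  refine ⟨ℕ → Bool, inferInstance, Measure.infinitePi P, fun ω => {i | X i (ω i) = true},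
    inferInstance, ?_⟩
  have hX : ∀ i, Measurable (X i) := fun i => measurable_of_countable _
  have hset : ∀ i, {ω : ℕ → Bool | i ∈ {i | X i (ω i) = true}} =
      (fun ω : ℕ → Bool => X i (ω i)) ⁻¹' {true} := by
    intro i
    rfl
  have hm : ∀ i, MeasurableSet ((fun ω : ℕ → Bool => X i (ω i)) ⁻¹' {true}) := by
    intro i
    exact ((hX i).comp (measurable_pi_apply i)) (MeasurableSet.singleton true)
  refine ⟨?_, ?_, ?_, ?_⟩
  · intro ω i hi
    by_contra hc
    simp [X, hc] at hi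
  · intro i
    rw [hset]
    exact hm i
  · simp_rw [hset]
    rw [iIndepSet_iff_meas_biInter hm]
    intro t
    exact (iIndepFun_infinitePi (P := P) hX).measure_inter_preimage_eq_mul t
      (fun i _ => MeasurableSet.singleton true)
  · intro i hi
    rw [hset]
    have h1 : (fun ω : ℕ → Bool => X i (ω i)) ⁻¹' {true} = (fun ω : ℕ → Bool => ω i) ⁻¹' {true} := by
      ext ω
      simp [X, hi]
    rw [h1, ← Measure.map_apply (measurable_pi_apply i) (MeasurableSet.singleton true),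
      Measure.infinitePi_map_eval]
    simp only [P]
    rw [PMF.toMeasure_apply_singleton _ _ (MeasurableSet.singleton true)]
    simp [p, PMF.bernoulli_apply, ENNReal.ofReal]

/-- **No density constant.** For every probability space `(Ω, μ)` and every random set `A` as in
the problem, almost surely `sqrt(log n) |Σ(A) ∩ [n]| / n` converges to no constant `C > 0`. -/
theorem result {Ω : Type*} [MeasurableSpace Ω] (μ : Measure Ω) (A : Ω → Set ℕ)
    (hA : IsRandomLacunarySet μ A) :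
    ∀ᵐ ω ∂μ, ¬ ∃ C : ℝ, 0 < C ∧
      Tendsto (fun n : ℕ => Real.sqrt (Real.log n) *
        ((SubsetSums (A ω) ∩ Set.Icc 1 n).ncard : ℝ) / n) atTop (𝓝 C) := by
  filter_upwards [Ev_freq hA] with ω hω
  rintro ⟨C, hC, hlim⟩
  refine no_limit (fun n => (SubsetSums (A ω) ∩ Set.Icc 1 n).ncard) C hC hlim ?_
  apply sc_tendsto.frequently (p := fun N => (SubsetSums (A ω) ∩ Set.Icc 1 (8 * N)).ncard =
    (SubsetSums (A ω) ∩ Set.Icc 1 (4 * N)).ncard)
  refine hω.mono ?_
  intro j hj
  rw [Ev_det A j ω hj]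

end Pool.Agent.Results.MP_78f804_pr.NoDensityConstant
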